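import Pool.Agent.Helper32.KD2.Basic
import Pool.Agent.Helper32.KD2.St.E1
/-! KD2-E2: one step of the chain on samples is `oneL`; coordinates after one step. -/
namespace KD.II.E2
open Finset MeasureTheory

theorem win_v {d N : ℕ} [NeZero N] {κ h : ℝ} (hh : 0 < h) {z : GG d N} (hz : z ∈ win κ h)
    (i : Fin d) : 4 * |((z.2 i).valMinAbs : ℝ)| ≤ 1 / h := by
  have h1 : ‖pv h z i‖ ≤ 1 / 4 := (norm_le_pi_norm (pv h z) i).trans hz.2
  have h2 : ‖pv h z i‖ = h * |((z.2 i).valMinAbs : ℝ)| := by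
    show ‖h * ((z.2 i).valMinAbs : ℝ)‖ = _
    rw [norm_mul, Real.norm_of_nonneg hh.le, Real.norm_eq_abs]
  rw [h2] at h1
  rw [le_div_iff₀ hh]
  linarith

theorem win_x {d N : ℕ} [NeZero N] {κ h : ℝ} (hκ : 0 < κ) (hh : 0 < h) {z : GG d N}
    (hz : z ∈ win κ h) (i : Fin d) : 4 * |((z.1 i).valMinAbs : ℝ)| ≤ 1 / (κ * h) := by
  have h1 : ‖px κ h z i‖ ≤ 1 / 4 := (norm_le_pi_norm (px κ h z) i).trans hz.1
  have h2 : ‖px κ h z i‖ = κ * h * |((z.1 i).valMinAbs : ℝ)| := by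
    show ‖-((κ * h) * ((z.1 i).valMinAbs : ℝ))‖ = _
    rw [norm_neg, norm_mul, Real.norm_of_nonneg (mul_pos hκ hh).le, Real.norm_eq_abs]
  rw [h2] at h1
  rw [le_div_iff₀ (mul_pos hκ hh)]
  linarith

theorem coord_jump {d N J : ℕ} [NeZero N] {κ h : ℝ} (hκ : 0 < κ) (hh : 0 < h)
    (hN : 1 / (κ * h) + 1 / h + 2 ^ (J + 3) < N) (z : GG d N) (hz : z ∈ win κ h) (p : V d N)
    (m : Fin d → ℤ) (hm : ∀ i, |m i| < 2 ^ (J + 1)) (hp : ∀ i, p i = ((m i : ℤ) : ZMod N)) :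
    pv h (Ap 1 (z + vs p)) = pv h z + (fun i => h * ((m i : ℤ) : ℝ)) ∧
    px κ h (Ap 1 (z + vs p)) = px κ h z - κ • (pv h z + (fun i => h * ((m i : ℤ) : ℝ))) := by
  have hκh : 0 < κ * h := mul_pos hκ hh
  have hpos1 : (0 : ℝ) < 1 / (κ * h) := by positivity
  have hpos2 : (0 : ℝ) < 1 / h := by positivity
  have hJ : (2 : ℝ) ^ (J + 3) = 4 * 2 ^ (J + 1) := by rw [show J + 3 = (J + 1) + 2 by ring, pow_add]; ring
  have hmR : ∀ i, |((m i : ℤ) : ℝ)| < 2 ^ (J + 1) := by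
    intro i
    have h1 : ((|m i| : ℤ) : ℝ) < ((2 ^ (J + 1) : ℤ) : ℝ) := by exact_mod_cast hm i
    push_cast at h1
    exact h1
  have hv : ∀ i, ((z.2 i + p i).valMinAbs : ℤ) = (z.2 i).valMinAbs + m i := by
    intro i
    have e1 : (p i).valMinAbs = m i := by
      rw [hp i]
      apply vma_cast
      have : (2 : ℝ) * |((m i : ℤ) : ℝ)| < N := by
        have := hmR i
        have h4 : (0 : ℝ) < 2 ^ (J + 1) := by positivity
        linarith
      exact_mod_cast this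
    rw [vma_add, e1]
    rw [e1]
    have h1 := win_v hh hz i
    have h2 := hmR i
    have h4 : (0 : ℝ) < 2 ^ (J + 1) := by positivity
    have : (2 : ℝ) * (|((z.2 i).valMinAbs : ℝ)| + |((m i : ℤ) : ℝ)|) < N := by linarith
    exact_mod_cast this
  have hx : ∀ i, ((z.1 i + (z.2 i + p i)).valMinAbs : ℤ) =
      (z.1 i).valMinAbs + ((z.2 i).valMinAbs + m i) := by
    intro i
    rw [vma_add, hv i]
    rw [hv i]
    have h0 := win_x hκ hh hz i
    have h1 := win_v hh hz i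
    have h2 := hmR i
    have h4 : (0 : ℝ) < 2 ^ (J + 1) := by positivity
    have h5 : |(((z.2 i).valMinAbs : ℤ) : ℝ) + ((m i : ℤ) : ℝ)| ≤
      |((z.2 i).valMinAbs : ℝ)| + |((m i : ℤ) : ℝ)| := abs_add_le _ _
    have : (2 : ℝ) * (|((z.1 i).valMinAbs : ℝ)| +
        |(((z.2 i).valMinAbs : ℤ) : ℝ) + ((m i : ℤ) : ℝ)|) < N := by linarith
    exact_mod_cast this
  have ev : pv h (Ap 1 (z + vs p)) = pv h z + (fun i => h * ((m i : ℤ) : ℝ)) := by
    funext i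
    show h * (((z.2 i + p i).valMinAbs : ℤ) : ℝ) = h * ((z.2 i).valMinAbs : ℝ) + h * ((m i : ℤ) : ℝ)
    rw [hv i]
    push_cast
    ring
  refine ⟨ev, ?_⟩
  funext i
  have e1 : px κ h (Ap 1 (z + vs p)) i =
      -((κ * h) * (((z.1 i + (z.2 i + p i)).valMinAbs : ℤ) : ℝ)) := by
    show -((κ * h) * (((((z + vs p).1 + 1 • (z + vs p).2) i).valMinAbs : ℤ) : ℝ)) = _
    have e2 : ((z + vs p).1 + 1 • (z + vs p).2) i = z.1 i + (z.2 i + p i) := by
      rw [one_smul]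
      show (z.1 i + 0) + (z.2 i + p i) = _
      rw [add_zero]
    rw [e2]
  rw [e1, hx i]
  show _ = -((κ * h) * ((z.1 i).valMinAbs : ℝ)) -
    κ * (h * ((z.2 i).valMinAbs : ℝ) + h * ((m i : ℤ) : ℝ))
  push_cast
  ring

theorem ijmp_lt {d J j : ℕ} (θ : Th d J) (i : Fin d) : |ijmp J j θ.1 i| < 2 ^ (J + 1) := by
  have h1 : θ.1 i ∈ Finset.Ioo (-(2 : ℤ) ^ (J + 1)) ((2 : ℤ) ^ (J + 1)) := by
    have h2 := θ.2
    unfold ThF at h2
    rw [Finset.mem_filter, Fintype.mem_piFinset] at h2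
    exact h2.1 i
  rw [Finset.mem_Ioo] at h1
  have h3 : |θ.1 i| < 2 ^ (J + 1) := by
    rw [abs_lt]
    exact h1
  refine lt_of_le_of_lt ?_ h3
  unfold ijmp
  rw [Int.abs_eq_natAbs, Int.abs_eq_natAbs, Int.natAbs_tdiv]
  exact_mod_cast Nat.div_le_self _ _

theorem gen_smp {d N J : ℕ} [NeZero N] (hd : 1 ≤ d) {s lam κ h ε c0 C0 : ℝ} (hκ : 0 < κ)
    (hh : 0 < h) (hN : 1 / (κ * h) + 1 / h + 2 ^ (J + 3) < N)
    (S : JSys d N J c0 C0 (Th d J)) (hSm : ∀ θ, S.m θ = mass d s J θ.1)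
    (hSpi : ∀ j θ i, S.pi j θ i = ((ijmp J j θ.1 i : ℤ) : ZMod N))
    (a : ℝ → Vd d → Vd d → Vd d → ℝ) (f : ℝ → Vd d → Vd d → ℝ) (n : ℕ) (z : GG d N)
    (hz : z ∈ win κ h) :
    gen S s ε (cof s lam κ h J a n) (smp κ h f (n + 1)) z =
      oneL s ε κ h J (a (-(n * κ)) (px κ h z) (pv h z)) f (-(n * κ)) (px κ h z) (pv h z) := by
  have ht : (-(((n + 1 : ℕ) : ℝ) * κ)) = -(n * κ) - κ := by push_cast; ring
  have h0 : smp κ h f (n + 1) (Ap 1 z) =
      f (-(n * κ) - κ) (px κ h z - κ • pv h z) (pv h z) := by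
    have h1 := coord_jump hκ hh hN z hz 0 0 (fun i => by simp) (fun i => by simp)
    have h2 : z + vs (0 : V d N) = z := by
      have : vs (0 : V d N) = (0 : GG d N) := rfl
      rw [this, add_zero]
    have h3 : (fun i : Fin d => h * (((0 : Fin d → ℤ) i : ℤ) : ℝ)) = 0 := by
      funext i
      simp
    rw [h2, h3, add_zero] at h1
    unfold smp
    rw [h1.1, h1.2, ht]
  have hj : ∀ (j : ℕ) (θ : Th d J), smp κ h f (n + 1) (Ap 1 (z + S.jv j θ)) =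
      f (-(n * κ) - κ) (px κ h z - κ • (pv h z + rjmp h J j θ.1))
        (pv h z + rjmp h J j θ.1) := by
    intro j θ
    have h1 := coord_jump hκ hh hN z hz (S.pi j θ) (ijmp J j θ.1) (fun i => ijmp_lt θ i)
      (fun i => hSpi j θ i)
    unfold smp
    show f (-(((n + 1 : ℕ) : ℝ) * κ)) (px κ h (Ap 1 (z + vs (S.pi j θ))))
      (pv h (Ap 1 (z + vs (S.pi j θ)))) = _
    rw [h1.1, h1.2, ht]
    rfl
  unfold gen oneL
  rw [h0]
  congr 2
  refine Finset.sum_congr rfl fun j _ => Finset.sum_congr rfl fun θ _ => ?_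
  rw [hj j θ]
  have hc : cof s lam κ h J a n j θ z =
      acf s (a (-(n * κ)) (px κ h z) (pv h z)) h J j θ.1 := by
    unfold cof
    rw [if_pos hz]
  rw [hc]
  unfold JSys.wt
  rw [hSm]

end KD.II.E2
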